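import Pool.Agent.H71.CO.Targets
import Pool.Agent.H68.CQ.MEM

/-!
Row RHB of `cqo_modules`: the coded set is a Borel invariant.
-/

set_option autoImplicit false

open Set

namespace Pool.Agent.H63.CO

open Pool.Agent.H71.CO

/-- a set of natural numbers is finite if it is bounded -/
theorem fin_iff (A : Set ℕ) : A.Finite ↔ ∃ N : ℕ, ∀ t, t ∈ A → t ≤ N := by
  constructor
  · intro h
    obtain ⟨N, hN⟩ := h.bddAbove
    exact ⟨N, fun t ht => hN ht⟩
  · rintro ⟨N, hN⟩
    exact (Set.finite_Iic N).subset fun t ht => hN t ht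

section

variable {C : Type} [MeasurableSpace C] {P : Set C}

theorem mlt (hP : MeasurableSet P) (a b : ℕ) :
    Measurable fun x : ℕ → ℕ → C => x a b ∈ P :=
  measurableSet_setOfPred.1 (((measurable_pi_apply b).comp (measurable_pi_apply a)) hP)

theorem mbtw (hP : MeasurableSet P) (w w' t : ℕ) :
    Measurable fun x : ℕ → ℕ → C => t ∈ {t | Btw (fun a b => x a b ∈ P) w w' t} := by
  have h : (fun x : ℕ → ℕ → C => t ∈ {t | Btw (fun a b => x a b ∈ P) w w' t}) = fun x =>
      (x w t ∈ P ∧ x t w' ∈ P) ∨ (x w' t ∈ P ∧ x t w ∈ P) := rfl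
  rw [h]
  exact ((mlt hP w t).and (mlt hP t w')).or ((mlt hP w' t).and (mlt hP t w))

theorem mfin (hP : MeasurableSet P) (w w' : ℕ) :
    Measurable fun x : ℕ → ℕ → C => w' ∈ {w' | {t | Btw (fun a b => x a b ∈ P) w w' t}.Finite} := by
  have h : (fun x : ℕ → ℕ → C => w' ∈ {w' | {t | Btw (fun a b => x a b ∈ P) w w' t}.Finite}) =
      fun x => ∃ N : ℕ, ∀ t, t ∈ {t | Btw (fun a b => x a b ∈ P) w w' t} → t ≤ N := by
    funext x
    exact propext (fin_iff _)
  rw [h]
  exact Measurable.exists fun N => Measurable.forall fun t => (mbtw hP w w' t).imp measurable_const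

theorem mrho (hP : MeasurableSet P) (u v n : ℕ) :
    Measurable fun x : ℕ → ℕ → C => n ∈ Rho (fun a b => x a b ∈ P) u v := by
  have h : (fun x : ℕ → ℕ → C => n ∈ Rho (fun a b => x a b ∈ P) u v) = fun x =>
      ∃ w, x u w ∈ P ∧ x w v ∈ P ∧
        {w' | {t | Btw (fun a b => x a b ∈ P) w w' t}.Finite}.encard = ((n + 2 : ℕ) : ℕ∞) := rfl
  rw [h]
  exact Measurable.exists fun w => (mlt hP u w).and ((mlt hP w v).and
    (Pool.Agent.H68.CQ.meas_encard_eq (fun w' => mfin hP w w') _))

end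

section

variable {V V' : Type} {lt : V → V → Prop} {lt' : V' → V' → Prop} {g : V ≃ V'}

theorem btw_iff (h : ∀ u v, lt' (g u) (g v) ↔ lt u v) (w w' t : V) :
    Btw lt' (g w) (g w') (g t) ↔ Btw lt w w' t := by
  unfold Pool.Agent.H71.CO.Btw
  rw [h, h, h, h]

theorem fin_btw (h : ∀ u v, lt' (g u) (g v) ↔ lt u v) (w w' : V) :
    {t | Btw lt' (g w) (g w') t}.Finite ↔ {t | Btw lt w w' t}.Finite := by
  have e : {t | Btw lt' (g w) (g w') t} = g '' {t | Btw lt w w' t} := by
    ext t
    constructor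
    · intro ht
      refine ⟨g.symm t, ?_, g.apply_symm_apply t⟩
      have h1 : Btw lt' (g w) (g w') (g (g.symm t)) := by rw [g.apply_symm_apply]; exact ht
      exact (btw_iff h _ _ _).1 h1
    · rintro ⟨s, hs, rfl⟩
      exact (btw_iff h _ _ _).2 hs
  rw [e, Set.finite_image_iff g.injective.injOn]

theorem card_btw (h : ∀ u v, lt' (g u) (g v) ↔ lt u v) (w : V) :
    {w' | {t | Btw lt' (g w) w' t}.Finite}.encard = {w' | {t | Btw lt w w' t}.Finite}.encard := by
  have e : {w' | {t | Btw lt' (g w) w' t}.Finite} = g '' {w' | {t | Btw lt w w' t}.Finite} := by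
    ext t
    constructor
    · intro ht
      refine ⟨g.symm t, ?_, g.apply_symm_apply t⟩
      have h1 : {s | Btw lt' (g w) (g (g.symm t)) s}.Finite := by
        rw [g.apply_symm_apply]
        exact ht
      exact (fin_btw h _ _).1 h1
    · rintro ⟨s, hs, rfl⟩
      exact (fin_btw h _ _).2 hs
  rw [e, g.injective.encard_image]

theorem rho_eq (h : ∀ u v, lt' (g u) (g v) ↔ lt u v) (u v : V) :
    Rho lt' (g u) (g v) = Rho lt u v := by
  ext n
  constructor
  · rintro ⟨w, h1, h2, h3⟩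
    obtain ⟨w, rfl⟩ := g.surjective w
    exact ⟨w, (h _ _).1 h1, (h _ _).1 h2, by rw [← card_btw h]; exact h3⟩
  · rintro ⟨w, h1, h2, h3⟩
    exact ⟨g w, (h _ _).2 h1, (h _ _).2 h2, by rw [card_btw h]; exact h3⟩

end

theorem pf_RHB : T_RHB := by
  classical
  intro C _ P hP
  refine ⟨fun u v => ?_, fun V V' lt lt' g h u v => rho_eq h u v⟩
  refine measurable_pi_iff.2 fun n => ?_
  have h1 : Measurable fun p : Prop => @decide p (Classical.propDecidable p) :=
    Measurable.of_discrete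
  exact h1.comp (mrho hP u v n)

end Pool.Agent.H63.CO
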